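import Pool.Agent.H38.LR.T3997.Q120.AD.Tail
import Pool.Agent.H38.LR.T3997.Q120.ET.Main

/-!
# Cramér's model: windows with few elements
-/

set_option autoImplicit false

namespace Pool.Agent.Q120.AD

open Finset MeasureTheory Filter Pool.Agent.Q120.ET Pool.Agent.Q120.MF
open scoped Topology

/-- After deleting at most `m` integers from `S`, some window `(y, y + h]` in `[x, 2 x]` contains no element. -/
def Makes (S : Set ℕ) (x m h : ℕ) : Prop :=
  ∃ D : Finset ℕ, D.card ≤ m ∧ ∃ y, x ≤ y ∧ y + h ≤ 2 * x ∧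
    ∀ n ∈ S \ (D : Set ℕ), ¬ (y < n ∧ n ≤ y + h)

theorem hl : Tendsto (fun x : ℕ => Real.log (x : ℝ)) atTop atTop :=
  Real.tendsto_log_atTop.comp tendsto_natCast_atTop_atTop

theorem hl2 : Tendsto (fun x : ℕ => Real.log (x : ℝ) ^ 2) atTop atTop :=
  (tendsto_pow_atTop two_ne_zero).comp hl

theorem tendsto_log_mul {C : ℝ} (hC : 0 < C) :
    Tendsto (fun x : ℕ => Real.log (C * x) / Real.log x) atTop (𝓝 1) := by
  have h1 : Tendsto (fun x : ℕ => Real.log C / Real.log (x : ℝ) + 1) atTop (𝓝 (0 + 1)) :=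
    (hl.const_div_atTop _).add_const 1
  rw [zero_add] at h1
  refine h1.congr' ?_
  filter_upwards [eventually_ge_atTop 3] with x hx
  have h2 := one_lt_log hx
  have h3 : (0 : ℝ) < x := by
    have : 0 < x := by omega
    exact_mod_cast this
  rw [Real.log_mul hC.ne' h3.ne']
  field_simp

theorem tendsto_floor {a : ℝ} (ha : 0 ≤ a) {f : ℕ → ℝ} (hf : Tendsto f atTop atTop) :
    Tendsto (fun x => (⌊a * f x⌋₊ : ℝ) / f x) atTop (𝓝 a) :=
  (tendsto_nat_floor_mul_div_atTop ha).comp hf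

theorem ev_pow (D ε : ℝ) (hε : 0 < ε) : ∀ᶠ x : ℕ in atTop, D * Real.log x ^ 3 ≤ (x : ℝ) ^ ε := by
  have h1 := (isLittleO_log_rpow_rpow_atTop (s := ε) 3 hε).bound (show (0 : ℝ) < 1 / (1 + |D|) by positivity)
  have h2 := tendsto_natCast_atTop_atTop (R := ℝ).eventually h1
  filter_upwards [h2, eventually_ge_atTop 3] with x hx hx3
  have h3 := one_lt_log hx3
  have h4 : (0 : ℝ) < x := by
    have : 0 < x := by omega
    exact_mod_cast this
  rw [Real.norm_of_nonneg (by positivity), Real.norm_of_nonneg (by positivity)] at hx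
  have h5 : Real.log (x : ℝ) ^ (3 : ℝ) = Real.log (x : ℝ) ^ 3 := by
    rw [← Real.rpow_natCast]
    norm_num
  rw [h5] at hx
  have h6 : D ≤ 1 + |D| := by linarith [le_abs_self D]
  have h7 : 0 < 1 + |D| := by positivity
  calc D * Real.log x ^ 3 ≤ (1 + |D|) * Real.log x ^ 3 := by
        apply mul_le_mul_of_nonneg_right h6 (by positivity)
    _ ≤ (1 + |D|) * (1 / (1 + |D|) * (x : ℝ) ^ ε) := mul_le_mul_of_nonneg_left hx h7.le
    _ = (x : ℝ) ^ ε := by field_simp

theorem ev_floor_le {a : ℝ} (ha : 0 ≤ a) (K : ℝ) : ∀ᶠ x : ℕ in atTop, K * (⌊a * Real.log x ^ 2⌋₊ : ℝ) ≤ x := by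
  filter_upwards [ev_pow (|K| * a) 1 one_pos, eventually_ge_atTop 3] with x hx hx3
  have h3 := one_lt_log hx3
  rw [Real.rpow_one] at hx
  have h4 : (⌊a * Real.log x ^ 2⌋₊ : ℝ) ≤ a * Real.log x ^ 2 := Nat.floor_le (by positivity)
  calc K * (⌊a * Real.log x ^ 2⌋₊ : ℝ) ≤ |K| * (⌊a * Real.log x ^ 2⌋₊ : ℝ) :=
        mul_le_mul_of_nonneg_right (le_abs_self K) (Nat.cast_nonneg _)
    _ ≤ |K| * (a * Real.log x ^ 2) := mul_le_mul_of_nonneg_left h4 (abs_nonneg K)
    _ ≤ |K| * a * Real.log x ^ 3 := by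
        have h5 : Real.log (x : ℝ) ^ 2 ≤ Real.log (x : ℝ) ^ 3 :=
          pow_le_pow_right₀ h3.le (by norm_num)
        have h6 : 0 ≤ |K| * a := by positivity
        nlinarith [mul_le_mul_of_nonneg_left h5 h6]
    _ ≤ x := hx

variable {Ω : Type*} [MeasurableSpace Ω] {μ : Measure Ω} [IsProbabilityMeasure μ] {A : Ω → Set ℕ}

theorem makes_iff {x m h : ℕ} {ω : Ω} : Makes (A ω) x m h ↔
    ∃ y, x ≤ y ∧ y + h ≤ 2 * x ∧ (tr A (Finset.Ioc y (y + h)) ω).card ≤ m := by
  constructor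
  · rintro ⟨D, hD, y, h1, h2, h3⟩
    refine ⟨y, h1, h2, (card_le_card ?_).trans hD⟩
    intro n hn
    rw [mem_tr, Finset.mem_Ioc] at hn
    by_contra hcon
    exact h3 n ⟨hn.2, hcon⟩ hn.1
  · rintro ⟨y, h1, h2, h3⟩
    refine ⟨_, h3, y, h1, h2, ?_⟩
    rintro n ⟨hn1, hn2⟩ hn3
    apply hn2
    rw [Finset.mem_coe, mem_tr, Finset.mem_Ioc]
    exact ⟨hn3, hn1⟩

theorem sum_window {y h : ℕ} {z : ℝ} (hy : 3 ≤ y) (hz : ((y + h : ℕ) : ℝ) ≤ z) :
    h / Real.log z ≤ ∑ n ∈ Finset.Ioc y (y + h), 1 / Real.log (n : ℝ) := by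
  have h1 : ∑ n ∈ Finset.Ioc y (y + h), 1 / Real.log z ≤ ∑ n ∈ Finset.Ioc y (y + h), 1 / Real.log (n : ℝ) := by
    apply sum_le_sum
    intro n hn
    rw [Finset.mem_Ioc] at hn
    have h2 := one_lt_log (show 3 ≤ n by omega)
    have h3 : (0 : ℝ) < n := by
      have : 0 < n := by omega
      exact_mod_cast this
    have h4 : (n : ℝ) ≤ z := by
      have : (n : ℝ) ≤ ((y + h : ℕ) : ℝ) := by exact_mod_cast hn.2
      linarith
    exact one_div_le_one_div_of_le (by linarith) (Real.log_le_log h3 h4)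
  rw [sum_const, Nat.card_Ioc, nsmul_eq_mul, mul_one_div] at h1
  have h5 : (y + h - y : ℕ) = h := by omega
  rw [h5] at h1
  exact h1

theorem sum_window_le {y h : ℕ} (hy : 3 ≤ y) :
    ∑ n ∈ Finset.Ioc y (y + h), 1 / Real.log (n : ℝ) ≤ h / Real.log (y : ℝ) := by
  have h1 : ∑ n ∈ Finset.Ioc y (y + h), 1 / Real.log (n : ℝ) ≤ ∑ n ∈ Finset.Ioc y (y + h), 1 / Real.log (y : ℝ) := by
    apply sum_le_sum
    intro n hn
    rw [Finset.mem_Ioc] at hn
    have h2 := one_lt_log hy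
    have h3 : (0 : ℝ) < y := by
      have : 0 < y := by omega
      exact_mod_cast this
    exact one_div_le_one_div_of_le (by linarith) (Real.log_le_log h3 (by exact_mod_cast hn.1.le))
  rw [sum_const, Nat.card_Ioc, nsmul_eq_mul, mul_one_div] at h1
  have h5 : (y + h - y : ℕ) = h := by omega
  rw [h5] at h1
  exact h1

theorem real_few (hA : IsCramer μ A) {y h m : ℕ} (hy : 3 ≤ y) {s : ℝ} (hs0 : 0 < s) (hs1 : s ≤ 1) :
    μ.real {ω | (tr A (Finset.Ioc y (y + h)) ω).card ≤ m} ≤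
      (1 / s) ^ m * Real.exp (-((1 - s) * ∑ n ∈ Finset.Ioc y (y + h), 1 / Real.log (n : ℝ))) := by
  have hW : ∀ n ∈ Finset.Ioc y (y + h), 3 ≤ n := by
    intro n hn
    rw [Finset.mem_Ioc] at hn
    omega
  rw [real_pred hA hW (fun T => T.card ≤ m)]
  exact lower_tail hW hs0 hs1 m

theorem real_many (hA : IsCramer μ A) {y h m : ℕ} (hy : 3 ≤ y) {s : ℝ} (hs1 : 1 ≤ s) :
    μ.real {ω | ¬ (tr A (Finset.Ioc y (y + h)) ω).card ≤ m} ≤
      (1 / s) ^ m * Real.exp (-((1 - s) * ∑ n ∈ Finset.Ioc y (y + h), 1 / Real.log (n : ℝ))) := by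
  have hW : ∀ n ∈ Finset.Ioc y (y + h), 3 ≤ n := by
    intro n hn
    rw [Finset.mem_Ioc] at hn
    omega
  rw [real_pred hA hW (fun T => ¬ T.card ≤ m)]
  exact upper_tail hW hs1 m

/-- Windows with few elements do not occur if the rate exceeds one. -/
theorem window_many (hA : IsCramer μ A) {c a : ℝ} (hc : 0 < c) (hca : c < a)
    (hr : 1 < a - c - c * Real.log (a / c)) :
    ∀ᵐ ω ∂μ, ∀ᶠ y : ℕ in atTop,
      ¬ (tr A (Finset.Ioc y (y + ⌊a * Real.log y ^ 2⌋₊)) ω).card ≤ ⌊c * Real.log y⌋₊ := by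
  have ha0 : 0 < a := by linarith
  obtain ⟨s, hs⟩ : ∃ s : ℝ, s = c / a := ⟨_, rfl⟩
  have hs0 : 0 < s := by rw [hs]; positivity
  have hs1 : s < 1 := by rw [hs, div_lt_one ha0]; exact hca
  have hsa : s * a = c := by rw [hs]; field_simp
  have hinv : 1 / s = a / c := by rw [hs, one_div_div]
  obtain ⟨κ, hκ⟩ : ∃ κ : ℝ, κ = (a - c - c * Real.log (a / c) - 1) / 2 := ⟨_, rfl⟩
  have hκ0 : 0 < κ := by rw [hκ]; linarith
  have hT : Tendsto (fun y : ℕ => (1 - s) * (((⌊a * Real.log y ^ 2⌋₊ : ℝ) / Real.log y ^ 2) /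
      (Real.log (2 * y) / Real.log y))) atTop (𝓝 ((1 - s) * (a / 1))) :=
    ((tendsto_floor ha0.le hl2).div (tendsto_log_mul two_pos) one_ne_zero).const_mul _
  have hT2 := hT.eventually_const_lt (show (1 - s) * a - κ < (1 - s) * (a / 1) by rw [div_one]; linarith)
  have hg : Summable (fun y : ℕ => (y : ℝ) ^ (-(1 + κ))) := Real.summable_nat_rpow.2 (by linarith)
  refine (ae_eventually_notMem (tsum_ne_top_of_real (μ := μ) hg
    (f := fun y => {ω | (tr A (Finset.Ioc y (y + ⌊a * Real.log y ^ 2⌋₊)) ω).card ≤ ⌊c * Real.log y⌋₊}) ?_))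
  filter_upwards [hT2, eventually_ge_atTop 3, ev_floor_le ha0.le 1] with y hy hy3 hyf
  have hlog := one_lt_log hy3
  have hy0 : (0 : ℝ) < y := by
    have : 0 < y := by omega
    exact_mod_cast this
  have hlog2 : 1 < Real.log (2 * (y : ℝ)) := by
    have := Real.log_le_log hy0 (show (y : ℝ) ≤ 2 * y by linarith)
    linarith
  refine (real_few hA hy3 hs0 hs1.le).trans ?_
  have h1 := sum_window (h := ⌊a * Real.log y ^ 2⌋₊) hy3 (z := 2 * y) (by push_cast; linarith)
  have h2 : ((1 - s) * a - κ) * Real.log y ≤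
      (1 - s) * ∑ n ∈ Finset.Ioc y (y + ⌊a * Real.log y ^ 2⌋₊), 1 / Real.log (n : ℝ) := by
    have h3 : (1 - s) * (((⌊a * Real.log y ^ 2⌋₊ : ℝ) / Real.log y ^ 2) /
      (Real.log (2 * y) / Real.log y)) * Real.log y = (1 - s) * ((⌊a * Real.log y ^ 2⌋₊ : ℝ) / Real.log (2 * y)) := by
      field_simp
    have h4 := mul_le_mul_of_nonneg_right hy.le (show 0 ≤ Real.log (y : ℝ) by linarith)
    rw [h3] at h4
    refine h4.trans (mul_le_mul_of_nonneg_left h1 (by linarith))
  have h5 : (1 / s) ^ ⌊c * Real.log y⌋₊ ≤ Real.exp (c * Real.log (a / c) * Real.log y) := by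
    have hla : 0 < Real.log (a / c) := Real.log_pos (by rw [lt_div_iff₀ hc]; linarith)
    have hac : 0 < a / c := by positivity
    rw [hinv, ← Real.exp_log hac, ← Real.exp_nat_mul, Real.exp_log hac]
    apply Real.exp_le_exp.2
    have h6 : (⌊c * Real.log y⌋₊ : ℝ) ≤ c * Real.log y := Nat.floor_le (by positivity)
    nlinarith
  calc (1 / s) ^ ⌊c * Real.log y⌋₊ *
        Real.exp (-((1 - s) * ∑ n ∈ Finset.Ioc y (y + ⌊a * Real.log y ^ 2⌋₊), 1 / Real.log (n : ℝ)))
      ≤ Real.exp (c * Real.log (a / c) * Real.log y) * Real.exp (-(((1 - s) * a - κ) * Real.log y)) := by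
        apply mul_le_mul h5 (Real.exp_le_exp.2 (by linarith)) (Real.exp_pos _).le (Real.exp_pos _).le
    _ = (y : ℝ) ^ (-(1 + κ)) := by
        rw [← Real.exp_add, Real.rpow_def_of_pos hy0]
        congr 1
        have h7 : (1 - s) * a = a - c := by rw [sub_mul, one_mul, hsa]
        rw [h7]
        have h8 : a - c - c * Real.log (a / c) = 1 + 2 * κ := by rw [hκ]; ring
        linear_combination (-Real.log (y : ℝ)) * h8

/-- The lower bound for the probability of few elements. -/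
theorem q_lower {c a : ℝ} (hc : 0 ≤ c) (hca : c < a) (hr : a - c - c * Real.log (a / c) < 1) :
    ∃ δ : ℝ, 0 < δ ∧ ∀ᶠ x : ℕ in atTop, (x : ℝ) ^ (-(1 - δ)) ≤
      ((⌊a * Real.log x ^ 2⌋₊).choose ⌊c * Real.log x⌋₊ : ℝ) *
        ((1 / Real.log (2 * x)) ^ ⌊c * Real.log x⌋₊ * (1 - 1 / Real.log x) ^ ⌊a * Real.log x ^ 2⌋₊) := by
  have ha0 : 0 < a := by linarith
  obtain ⟨δ, hδ⟩ : ∃ δ : ℝ, δ = (1 - (a - c - c * Real.log (a / c))) / 2 := ⟨_, rfl⟩
  have hδ0 : 0 < δ := by rw [hδ]; linarith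
  refine ⟨δ, hδ0, ?_⟩
  have hth := tendsto_floor ha0.le hl2
  have htm := tendsto_floor hc hl
  have htl := tendsto_log_mul (show (0 : ℝ) < 2 by norm_num)
  -- the third piece
  have hP3 : Tendsto (fun x : ℕ => (⌊a * Real.log x ^ 2⌋₊ : ℝ) * Real.log (1 - 1 / Real.log x) / Real.log x)
      atTop (𝓝 (a * (-1))) := by
    have h1 := (Real.tendsto_mul_log_one_add_div_atTop (-1)).comp hl
    refine (hth.mul h1).congr' ?_
    filter_upwards [eventually_ge_atTop 3] with x hx
    have h2 := one_lt_log hx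
    simp only [Function.comp]
    rw [show 1 + -1 / Real.log (x : ℝ) = 1 - 1 / Real.log (x : ℝ) by ring]
    field_simp
  have hfloor : ∀ᶠ x : ℕ in atTop, ⌊c * Real.log x⌋₊ ≤ ⌊a * Real.log x ^ 2⌋₊ := by
    filter_upwards [eventually_ge_atTop 3] with x hx
    have h2 := one_lt_log hx
    apply Nat.floor_le_floor
    calc c * Real.log x ≤ a * Real.log x := mul_le_mul_of_nonneg_right hca.le (by linarith)
      _ ≤ a * Real.log x ^ 2 := mul_le_mul_of_nonneg_left (by nlinarith) ha0.le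
  rcases hc.eq_or_lt with hc0 | hc0
  · -- no element
    rw [← hc0] at hδ
    rw [← hc0]
    simp only [zero_mul, Nat.floor_zero, Nat.choose_zero_right, Nat.cast_one, pow_zero, one_mul]
    have h1 := hP3.eventually_const_lt (show -(1 - δ) < a * (-1) by
      rw [hδ]
      rw [← hc0] at hr
      linarith)
    filter_upwards [h1, eventually_ge_atTop 3] with x hx hx3
    have h2 := one_lt_log hx3
    have hx0 : (0 : ℝ) < x := by
      have : 0 < x := by omega
      exact_mod_cast this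
    rw [lt_div_iff₀ (by linarith)] at hx
    have h3 : 0 < 1 - 1 / Real.log (x : ℝ) := by
      have : 1 / Real.log (x : ℝ) < 1 := by rw [div_lt_one (by linarith)]; exact h2
      linarith
    rw [Real.rpow_def_of_pos hx0]
    calc Real.exp (Real.log x * (-(1 - δ))) ≤
          Real.exp ((⌊a * Real.log x ^ 2⌋₊ : ℝ) * Real.log (1 - 1 / Real.log x)) :=
          Real.exp_le_exp.2 (by linarith)
      _ = _ := by rw [Real.exp_nat_mul, Real.exp_log h3]
  · -- the pieces
    have hP1 : Tendsto (fun x : ℕ => Real.log ((⌊c * Real.log x⌋₊ : ℝ) + 1) / Real.log x) atTop (𝓝 0) := by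
      have h1 : Tendsto (fun x : ℕ => ((⌊c * Real.log x⌋₊ : ℝ) + 1)) atTop atTop :=
        tendsto_atTop_mono (fun x => (Nat.lt_floor_add_one _).le) (hl.const_mul_atTop hc0)
      have h2 := (Real.isLittleO_log_id_atTop.tendsto_div_nhds_zero).comp h1
      have h3 : Tendsto (fun x : ℕ => ((⌊c * Real.log x⌋₊ : ℝ) + 1) / Real.log x) atTop (𝓝 (c + 0)) := by
        have h4 := htm.add (hl.const_div_atTop (1 : ℝ))
        refine h4.congr (fun x => ?_)
        rw [add_div]
      have h4 := h2.mul h3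
      rw [zero_mul] at h4
      refine h4.congr' ?_
      filter_upwards [eventually_ge_atTop 3] with x hx
      have h5 := one_lt_log hx
      simp only [Function.comp, id]
      have h6 : (0 : ℝ) < (⌊c * Real.log x⌋₊ : ℝ) + 1 := by positivity
      field_simp
    have hR : Tendsto (fun x : ℕ => (((⌊a * Real.log x ^ 2⌋₊ : ℝ) - (⌊c * Real.log x⌋₊ : ℝ)) *
        (1 / Real.log (2 * x)) * Real.exp 1) / ((⌊c * Real.log x⌋₊ : ℝ) + 1)) atTop
        (𝓝 ((a - c * 0) * (1 / 1) * Real.exp 1 / (c + 0))) := by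
      have h1 : Tendsto (fun x : ℕ => (⌊a * Real.log x ^ 2⌋₊ : ℝ) / Real.log x ^ 2 -
          (⌊c * Real.log x⌋₊ : ℝ) / Real.log x * (1 / Real.log x)) atTop (𝓝 (a - c * 0)) :=
        hth.sub (htm.mul (hl.const_div_atTop (1 : ℝ)))
      have h2 : Tendsto (fun x : ℕ => 1 / (Real.log (2 * x) / Real.log x)) atTop (𝓝 (1 / 1)) :=
        tendsto_const_nhds.div htl one_ne_zero
      have h3 : Tendsto (fun x : ℕ => (⌊c * Real.log x⌋₊ : ℝ) / Real.log x + 1 / Real.log x) atTop (𝓝 (c + 0)) :=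
        htm.add (hl.const_div_atTop (1 : ℝ))
      refine (((h1.mul h2).mul_const (Real.exp 1)).div h3 (by rw [add_zero]; exact hc0.ne')).congr' ?_
      filter_upwards [eventually_ge_atTop 3] with x hx
      have h5 := one_lt_log hx
      have hx0 : (0 : ℝ) < x := by
        have : 0 < x := by omega
        exact_mod_cast this
      have h6 : 1 < Real.log (2 * (x : ℝ)) := by
        have := Real.log_le_log hx0 (show (x : ℝ) ≤ 2 * x by linarith)
        linarith
      have h7 : (0 : ℝ) < (⌊c * Real.log x⌋₊ : ℝ) + 1 := by positivity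
      simp only [Pi.div_apply]
      field_simp
    have hRlim : (a - c * 0) * (1 / 1) * Real.exp 1 / (c + 0) = a / c * Real.exp 1 := by
      rw [mul_zero, sub_zero, add_zero]; ring
    rw [hRlim] at hR
    have hR0 : 0 < a / c * Real.exp 1 := by positivity
    have hlogR := (hR.log hR0.ne')
    have hlogRlim : Real.log (a / c * Real.exp 1) = Real.log (a / c) + 1 := by
      rw [Real.log_mul (by positivity) (Real.exp_ne_zero _), Real.log_exp]
    rw [hlogRlim] at hlogR
    have hG := ((htm.mul hlogR).sub hP1).add hP3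
    have h1 := hG.eventually_const_lt (show -(1 - δ) < c * (Real.log (a / c) + 1) - 0 + a * (-1) by
      rw [hδ]; linarith)
    filter_upwards [h1, eventually_ge_atTop 3, hfloor, hR.eventually_const_lt hR0] with x hx hx3 hmh hRpos
    have h2 := one_lt_log hx3
    have hx0 : (0 : ℝ) < x := by
      have : 0 < x := by omega
      exact_mod_cast this
    have h2' : 1 < Real.log (2 * (x : ℝ)) := by
      have := Real.log_le_log hx0 (show (x : ℝ) ≤ 2 * x by linarith)
      linarith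
    have h3 : 0 < 1 - 1 / Real.log (x : ℝ) := by
      have : 1 / Real.log (x : ℝ) < 1 := by rw [div_lt_one (by linarith)]; exact h2
      linarith
    have hb := choose_bound (p := 1 / Real.log (2 * x)) (by positivity) hmh
    obtain ⟨R, hRdef⟩ : ∃ R : ℝ, R = (((⌊a * Real.log x ^ 2⌋₊ : ℝ) - (⌊c * Real.log x⌋₊ : ℝ)) *
        (1 / Real.log (2 * x)) * Real.exp 1) / ((⌊c * Real.log x⌋₊ : ℝ) + 1) := ⟨_, rfl⟩
    rw [← hRdef] at hb hRpos hx
    have hm1 : (0 : ℝ) < (⌊c * Real.log x⌋₊ : ℝ) + 1 := by positivity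
    have h4 : Real.exp ((⌊c * Real.log x⌋₊ : ℝ) * Real.log R - Real.log ((⌊c * Real.log x⌋₊ : ℝ) + 1) +
        (⌊a * Real.log x ^ 2⌋₊ : ℝ) * Real.log (1 - 1 / Real.log x)) =
        (1 / ((⌊c * Real.log x⌋₊ : ℝ) + 1) * R ^ ⌊c * Real.log x⌋₊) * (1 - 1 / Real.log x) ^ ⌊a * Real.log x ^ 2⌋₊ := by
      rw [Real.exp_add, Real.exp_sub, Real.exp_nat_mul, Real.exp_nat_mul, Real.exp_log hRpos, Real.exp_log hm1,
        Real.exp_log h3]
      ring
    have h5 : Real.log x * (-(1 - δ)) ≤ (⌊c * Real.log x⌋₊ : ℝ) * Real.log R -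
        Real.log ((⌊c * Real.log x⌋₊ : ℝ) + 1) +
        (⌊a * Real.log x ^ 2⌋₊ : ℝ) * Real.log (1 - 1 / Real.log x) := by
      have h6 : (⌊c * Real.log x⌋₊ : ℝ) / Real.log x * Real.log R -
          Real.log ((⌊c * Real.log x⌋₊ : ℝ) + 1) / Real.log x +
          (⌊a * Real.log x ^ 2⌋₊ : ℝ) * Real.log (1 - 1 / Real.log x) / Real.log x =
          ((⌊c * Real.log x⌋₊ : ℝ) * Real.log R -
        Real.log ((⌊c * Real.log x⌋₊ : ℝ) + 1) +
        (⌊a * Real.log x ^ 2⌋₊ : ℝ) * Real.log (1 - 1 / Real.log x)) / Real.log x := by ring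
      rw [h6, lt_div_iff₀ (by linarith)] at hx
      linarith
    rw [Real.rpow_def_of_pos hx0]
    refine (Real.exp_le_exp.2 h5).trans ?_
    rw [h4, ← mul_assoc]
    exact mul_le_mul_of_nonneg_right hb (by positivity)

/-- Windows with few elements occur if the rate is less than one. -/
theorem window_few (hA : IsCramer μ A) {c a : ℝ} (hc : 0 ≤ c) (hca : c < a)
    (hr : a - c - c * Real.log (a / c) < 1) :
    ∀ᵐ ω ∂μ, ∀ᶠ x : ℕ in atTop, ∃ y, x ≤ y ∧ y + ⌊a * Real.log x ^ 2⌋₊ ≤ 2 * x ∧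
      (tr A (Finset.Ioc y (y + ⌊a * Real.log x ^ 2⌋₊)) ω).card ≤ ⌊c * Real.log x⌋₊ := by
  have ha0 : 0 < a := by linarith
  obtain ⟨δ, hδ0, hq⟩ := q_lower hc hca hr
  have hg : Summable (fun x : ℕ => (x : ℝ) ^ (-(2 : ℝ))) := Real.summable_nat_rpow.2 (by norm_num)
  have hae := (ae_eventually_notMem (tsum_ne_top_of_real (μ := μ) hg
    (f := fun x => {ω | ∀ i ∈ range (x / ⌊a * Real.log x ^ 2⌋₊),
      ¬ (tr A (Finset.Ioc (x + i * ⌊a * Real.log x ^ 2⌋₊) (x + i * ⌊a * Real.log x ^ 2⌋₊ +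
        ⌊a * Real.log x ^ 2⌋₊)) ω).card ≤ ⌊c * Real.log x⌋₊}) ?_))
  · filter_upwards [hae] with ω hω
    filter_upwards [hω] with x hx
    push Not at hx
    obtain ⟨i, hi, hcard⟩ := hx
    rw [mem_range] at hi
    refine ⟨x + i * ⌊a * Real.log x ^ 2⌋₊, by omega, ?_, hcard⟩
    have h1 : (i + 1) * ⌊a * Real.log x ^ 2⌋₊ ≤ x / ⌊a * Real.log x ^ 2⌋₊ * ⌊a * Real.log x ^ 2⌋₊ :=
      Nat.mul_le_mul_right _ hi
    have h2 := Nat.div_mul_le_self x ⌊a * Real.log x ^ 2⌋₊
    have h3 : (i + 1) * ⌊a * Real.log x ^ 2⌋₊ = i * ⌊a * Real.log x ^ 2⌋₊ + ⌊a * Real.log x ^ 2⌋₊ := by ring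
    omega
  · have htl2 := hl2.eventually_ge_atTop (1 / a)
    filter_upwards [hq, eventually_ge_atTop 3, ev_floor_le ha0.le 2, ev_pow (4 * a) δ hδ0, htl2] with
      x hxq hx3 hxf hxp hx1
    have hlog := one_lt_log hx3
    have hx0 : (0 : ℝ) < x := by
      have : 0 < x := by omega
      exact_mod_cast this
    have hlog2 : 1 < Real.log (2 * (x : ℝ)) := by
      have := Real.log_le_log hx0 (show (x : ℝ) ≤ 2 * x by linarith)
      linarith
    obtain ⟨h, hh⟩ : ∃ h : ℕ, h = ⌊a * Real.log x ^ 2⌋₊ := ⟨_, rfl⟩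
    obtain ⟨m, hm⟩ : ∃ m : ℕ, m = ⌊c * Real.log x⌋₊ := ⟨_, rfl⟩
    rw [← hh] at hxf
    rw [← hh, ← hm] at hxq
    rw [← hh, ← hm]
    have hh1 : 1 ≤ h := by
      rw [hh]
      apply Nat.le_floor
      rw [div_le_iff₀ ha0] at hx1
      push_cast
      linarith
    have hhle : (h : ℝ) ≤ a * Real.log x ^ 2 := by rw [hh]; exact Nat.floor_le (by positivity)
    obtain ⟨q, hqd⟩ : ∃ q : ℝ, q = (x : ℝ) ^ (-(1 - δ)) := ⟨_, rfl⟩
    have hq0 : 0 < q := by rw [hqd]; positivity
    obtain ⟨N, hN⟩ : ∃ N : ℕ, N = x / h := ⟨_, rfl⟩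
    rw [← hN]
    have hNh : N * h ≤ x := by rw [hN]; exact Nat.div_mul_le_self x h
    have hW3 : ∀ i ∈ range N, ∀ n ∈ Finset.Ioc (x + i * h) (x + i * h + h), 3 ≤ n := by
      intro i _ n hn
      rw [Finset.mem_Ioc] at hn
      omega
    have hd : ∀ i ∈ range N, ∀ j ∈ range N, i ≠ j →
        Disjoint (Finset.Ioc (x + i * h) (x + i * h + h)) (Finset.Ioc (x + j * h) (x + j * h + h)) := by
      intro i _ j _ hij
      rw [Finset.disjoint_left]
      intro n hn1 hn2
      rw [Finset.mem_Ioc] at hn1 hn2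
      rcases lt_or_gt_of_ne hij with h1 | h1
      · have h2 : (i + 1) * h ≤ j * h := Nat.mul_le_mul_right _ h1
        have h3 : (i + 1) * h = i * h + h := by ring
        omega
      · have h2 : (j + 1) * h ≤ i * h := Nat.mul_le_mul_right _ h1
        have h3 : (j + 1) * h = j * h + h := by ring
        omega
    rw [real_all hA (range N) (fun i => Finset.Ioc (x + i * h) (x + i * h + h)) hW3 hd
      (fun _ T => ¬ T.card ≤ m)]
    have hone : ∀ i ∈ range N, ∑ T ∈ (Finset.Ioc (x + i * h) (x + i * h + h)).powerset with ¬ T.card ≤ m,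
        cramerOn (Finset.Ioc (x + i * h) (x + i * h + h)) T ≤ Real.exp (-q) := by
      intro i hi
      have hi' := mem_range.1 hi
      have h1 := sum_filter_add_sum_filter_not (Finset.Ioc (x + i * h) (x + i * h + h)).powerset
        (fun T => T.card ≤ m) (cramerOn (Finset.Ioc (x + i * h) (x + i * h + h)))
      rw [sum_cramerOn] at h1
      have h2 : (i + 1) * h ≤ N * h := Nat.mul_le_mul_right _ hi'
      have h3 : (i + 1) * h = i * h + h := by ring
      have h4 := point_bound (W := Finset.Ioc (x + i * h) (x + i * h + h)) (y := x) (z := 2 * x) hlog hx0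
        (by
          intro n hn
          rw [Finset.mem_Ioc] at hn
          constructor
          · have : x ≤ n := by omega
            exact_mod_cast this
          · have : n ≤ 2 * x := by omega
            exact_mod_cast this) m
      rw [Nat.card_Ioc] at h4
      have h5 : (x + i * h + h - (x + i * h) : ℕ) = h := by omega
      rw [h5] at h4
      have h6 := Real.one_sub_le_exp_neg q
      rw [← hqd] at hxq
      linarith
    have h1 : ∏ i ∈ range N, ∑ T ∈ (Finset.Ioc (x + i * h) (x + i * h + h)).powerset with ¬ T.card ≤ m,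
        cramerOn (Finset.Ioc (x + i * h) (x + i * h + h)) T ≤ ∏ i ∈ range N, Real.exp (-q) := by
      apply Finset.prod_le_prod
      · intro i hi
        apply sum_nonneg
        intro T hT
        rw [mem_filter, mem_powerset] at hT
        exact cramerOn_nonneg (hW3 i hi) hT.1
      · exact hone
    refine h1.trans ?_
    rw [prod_const, card_range, ← Real.exp_nat_mul, Real.rpow_def_of_pos hx0]
    apply Real.exp_le_exp.2
    -- `2 log x ≤ N q`
    have h2 : (x : ℝ) / 2 ≤ N * h := by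
      have h3 : x < (N + 1) * h := by
        rw [hN]
        have := Nat.lt_succ_iff.1 (Nat.lt_succ_of_lt (Nat.lt_div_mul_add (a := x) (b := h) (by omega)))
        have h4 := Nat.lt_div_mul_add (a := x) (b := h) (by omega)
        calc x < x / h * h + h := h4
          _ = (x / h + 1) * h := by ring
      have h4 : (x : ℝ) < (N + 1) * h := by exact_mod_cast h3
      nlinarith
    have h3 : (x : ℝ) ^ δ / 2 ≤ N * q * h := by
      have h4 : (x : ℝ) ^ δ = x * q := by
        rw [hqd]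
        nth_rewrite 2 [← Real.rpow_one (x : ℝ)]
        rw [← Real.rpow_add hx0]
        congr 1
        ring
      rw [h4]
      nlinarith
    have h4 : 2 * Real.log x * h ≤ N * q * h := by
      calc 2 * Real.log x * h ≤ 2 * Real.log x * (a * Real.log x ^ 2) :=
            mul_le_mul_of_nonneg_left hhle (by linarith)
        _ = (4 * a * Real.log x ^ 3) / 2 := by ring
        _ ≤ (x : ℝ) ^ δ / 2 := by linarith
        _ ≤ _ := h3
    have hh0 : (0 : ℝ) < h := by exact_mod_cast hh1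
    have h5 := le_of_mul_le_mul_right h4 hh0
    linarith

end Pool.Agent.Q120.AD
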